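import Pool.Graph.R_seed8.H9R2.TF.Fin

/-!
MP_0f7e37_mp, Q1 (monotonicity of the Thomas–Fermi pressure), directional form: for every
direction `n` the diagonal entry `n · P n` of the Thomas–Fermi pressure tensor is a nonincreasing
function of the electron number.
-/

set_option autoImplicit false
open MeasureTheory Set Filter Topology Metric
open scoped RealInnerProductSpace BigOperators ENNReal

namespace Pool.Agent.Results.MP_0f7e37_mp.Directional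

/-- three-space -/
abbrev V3 : Type := EuclideanSpace ℝ (Fin 3)

/-- admissible densities -/
def Admissible (ρ : V3 → ℝ) : Prop :=
  (∀ x, 0 ≤ ρ x) ∧ Integrable ρ ∧ Integrable (fun x => ρ x ^ ((5 : ℝ) / 3))

/-- the kinetic energy `K(ρ)` -/
noncomputable def kinetic (ρ : V3 → ℝ) : ℝ := (3 / 5 : ℝ) * ∫ x, ρ x ^ ((5 : ℝ) / 3)

/-- the Thomas–Fermi functional -/
noncomputable def energy {k : ℕ} (z : Fin k → ℝ) (R : Fin k → V3) (ρ : V3 → ℝ) : ℝ :=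
  kinetic ρ - (∫ x, (∑ i, z i / ‖x - R i‖) * ρ x)
    + (1 / 2 : ℝ) * (∫ x, (∫ y, ρ x * ρ y / ‖x - y‖))
    + ∑ i, ∑ j, (if i < j then z i * z j / ‖R i - R j‖ else 0)

/-- the component of the pressure tensor in the direction of the unit vector `n` -/
noncomputable def stress {k : ℕ} (n : V3) (z : Fin k → ℝ) (R : Fin k → V3) (ρ : V3 → ℝ) : ℝ :=
  (2 / 3 : ℝ) * kinetic ρ - (∫ x, (∑ i, z i * ⟪n, x - R i⟫ ^ 2 / ‖x - R i‖ ^ 3) * ρ x)
    + (1 / 2 : ℝ) * (∫ p : V3 × V3, ρ p.1 * ρ p.2 * ⟪n, p.1 - p.2⟫ ^ 2 / ‖p.1 - p.2‖ ^ 3)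
    + ∑ i, ∑ j, (if i < j then z i * z j * ⟪n, R i - R j⟫ ^ 2 / ‖R i - R j‖ ^ 3 else 0)

/-- `ρ` minimises the Thomas–Fermi functional among admissible densities of integral `l` -/
def IsMinimiser {k : ℕ} (z : Fin k → ℝ) (R : Fin k → V3) (l : ℝ) (ρ : V3 → ℝ) : Prop :=
  Admissible ρ ∧ (∫ x, ρ x) = l ∧
    ∀ σ, Admissible σ → (∫ x, σ x) = l → energy z R ρ ≤ energy z R σ

open Pool.Agent.Helper557 Pool.Agent.Helper557.TFP Pool.Agent.H9R2.TF

section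
variable {k : ℕ} {z : Fin k → ℝ} {R : Fin k → V3}

/-- the directional functional without the nuclear constant, in the library's notation -/
noncomputable def SF (n : V3) (z : Fin k → ℝ) (R : Fin k → V3) (ρ : V3 → ℝ) : ℝ :=
  2/5 * (∫ x, ρ x ^ (5/3 : ℝ)) - (∫ x, (∑ i, z i * (⟪n, x - R i⟫ * gn n (x - R i))) * ρ x)
    + 1/2 * Qn n ρ

theorem SF_congr (n : V3) {f g : V3 → ℝ} (h : f =ᵐ[volume] g) : SF n z R f = SF n z R g := by
  unfold SF Qn
  have e1 : ∫ x, f x ^ (5/3 : ℝ) = ∫ x, g x ^ (5/3 : ℝ) := by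
    refine integral_congr_ae ?_
    filter_upwards [h] with x hx
    rw [hx]
  have e2 : ∫ x, (∑ i, z i * (⟪n, x - R i⟫ * gn n (x - R i))) * f x
      = ∫ x, (∑ i, z i * (⟪n, x - R i⟫ * gn n (x - R i))) * g x := by
    refine integral_congr_ae ?_
    filter_upwards [h] with x hx
    rw [hx]
  have e3 : (∫ p : V3 × V3, f p.1 * f p.2 * (⟪n, p.1 - p.2⟫ * gn n (p.1 - p.2)))
      = ∫ p : V3 × V3, g p.1 * g p.2 * (⟪n, p.1 - p.2⟫ * gn n (p.1 - p.2)) := by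
    refine integral_congr_ae ?_
    rw [Measure.volume_eq_prod]
    have h1 := (Measure.quasiMeasurePreserving_fst (μ := (volume : Measure V3)) (ν := (volume : Measure V3))).ae_eq h
    have h2 := (Measure.quasiMeasurePreserving_snd (μ := (volume : Measure V3)) (ν := (volume : Measure V3))).ae_eq h
    filter_upwards [h1, h2] with p hp1 hp2
    simp only [Function.comp] at hp1 hp2
    rw [hp1, hp2]
  rw [e1, e2, e3]

theorem sum_int (n : V3) (hn : ‖n‖ = 1) {g : V3 → ℝ} (hg : Nice g) :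
    ∫ x, (∑ i, z i * (⟪n, x - R i⟫ * gn n (x - R i))) * g x
      = ∑ i, z i * ∫ x, g x * (⟪n, x - R i⟫ * gn n (x - R i)) := by
  rw [← Finset.sum_congr rfl (fun i _ => integral_const_mul (z i) _),
    ← integral_finsetSum _ (fun i _ => (quad_int hg n hn (R i)).const_mul (z i))]
  congr 1
  funext x
  rw [Finset.sum_mul]
  exact Finset.sum_congr rfl fun i _ => by ring

theorem SF_mono (hz : ∀ j, 0 ≤ z j) (n : V3) (hn : ‖n‖ = 1) {Φ₁ Φ₂ : ℝ} {ρ₁ ρ₂ : V3 → ℝ}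
    (hΦ₂ : 0 ≤ Φ₂) (hΦ : Φ₂ ≤ Φ₁) (h₁ : ELs z R Φ₁ ρ₁) (h₂ : ELs z R Φ₂ ρ₂) :
    SF n z R ρ₂ ≤ SF n z R ρ₁ := by
  have H := Mn' hz hΦ₂ hΦ h₁ h₂ n hn
  have e : ∀ i, (∫ x, (ρ₂ x - ρ₁ x) * (⟪n, x - R i⟫ * gn n (x - R i)))
      = (∫ x, ρ₂ x * (⟪n, x - R i⟫ * gn n (x - R i)))
        - ∫ x, ρ₁ x * (⟪n, x - R i⟫ * gn n (x - R i)) := by
    intro i
    rw [← integral_sub (quad_int h₂.nice n hn (R i)) (quad_int h₁.nice n hn (R i))]
    congr 1
    funext x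
    ring
  simp only [e, mul_sub, Finset.sum_sub_distrib] at H
  unfold SF
  rw [sum_int n hn h₁.nice, sum_int n hn h₂.nice]
  linarith

theorem gn_sq_nonneg (n v : V3) : 0 ≤ ⟪n, v⟫ * gn n v := by
  unfold gn
  rw [← mul_div_assoc]
  exact div_nonneg (mul_self_nonneg _) (by positivity)

theorem SF_zero (hz : ∀ j, 0 ≤ z j) (n : V3) (hn : ‖n‖ = 1) {Φ₂ : ℝ} {ρ₂ : V3 → ℝ}
    (hΦ₂ : 0 ≤ Φ₂) (h₂ : ELs z R Φ₂ ρ₂) : SF n z R ρ₂ ≤ 0 := by
  have H : ∀ n : ℕ, ∃ τ, ELs z R (Φ₂ + n) τ ∧ ∀ x, τ x ≤ ρ₂ x := fun n =>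
    exists_rho h₂ (by have : (0:ℝ) ≤ n := Nat.cast_nonneg n; linarith)
  choose τ hτ hle using H
  obtain ⟨B, hB0, hB⟩ := pot_bdd h₂.nice
  have hev : ∀ x, ∀ᶠ n : ℕ in atTop, τ n x = 0 := by
    intro x
    obtain ⟨N, hN⟩ := exists_nat_gt (VV z R x)
    filter_upwards [eventually_ge_atTop N] with n hn
    rw [(hτ n).eq]
    apply be_zero_of
    have h1 := pot_nonneg (hτ n).nonneg x
    have h2 : (N:ℝ) ≤ n := by exact_mod_cast hn
    linarith
  have t1 : Tendsto (fun n => ∫ x, τ n x ^ (5/3 : ℝ)) atTop (𝓝 0) := by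
    have := tendsto_integral_of_dominated_convergence (F := fun n x => τ n x ^ (5/3 : ℝ)) (f := fun _ : V3 => (0:ℝ)) (fun x => ρ₂ x ^ (5/3 : ℝ))
      (fun n => ((hτ n).nice.1.pow_const _).aestronglyMeasurable) h₂.int53
      (fun n => Eventually.of_forall (fun x => by
        rw [Real.norm_of_nonneg (Real.rpow_nonneg ((hτ n).nonneg x) _)]
        exact Real.rpow_le_rpow ((hτ n).nonneg x) (hle n x) (by norm_num)))
      (Eventually.of_forall (fun x => by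
        refine tendsto_const_nhds.congr' ?_
        filter_upwards [hev x] with n hn
        rw [hn, Real.zero_rpow (by norm_num)]))
    rwa [integral_zero] at this
  have t2 : Tendsto (fun n => ∫ x, τ n x) atTop (𝓝 0) := by
    have := tendsto_integral_of_dominated_convergence (F := fun n x => τ n x) (f := fun _ : V3 => (0:ℝ)) (fun x => ρ₂ x)
      (fun n => (hτ n).nice.1.aestronglyMeasurable) h₂.nice.2.1
      (fun n => Eventually.of_forall (fun x => by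
        rw [Real.norm_of_nonneg ((hτ n).nonneg x)]
        exact hle n x))
      (Eventually.of_forall (fun x => by
        refine tendsto_const_nhds.congr' ?_
        filter_upwards [hev x] with n hn
        rw [hn]))
    rwa [integral_zero] at this
  have t3 : Tendsto (fun n => 2/5 * (∫ x, τ n x ^ (5/3 : ℝ)) + 1/2 * (B * ∫ x, τ n x)) atTop (𝓝 0) := by
    have := (t1.const_mul (2/5)).add ((t2.const_mul B).const_mul (1/2))
    simpa using this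
  refine ge_of_tendsto t3 (Eventually.of_forall (fun m => ?_))
  have hm : (0:ℝ) ≤ m := Nat.cast_nonneg m
  refine (SF_mono hz n hn hΦ₂ (by linarith : Φ₂ ≤ Φ₂ + m) (hτ m) h₂).trans ?_
  have v0 : 0 ≤ ∫ x, (∑ i, z i * (⟪n, x - R i⟫ * gn n (x - R i))) * τ m x :=
    integral_nonneg (fun x => mul_nonneg (Finset.sum_nonneg fun i _ =>
      mul_nonneg (hz i) (gn_sq_nonneg _ _)) ((hτ m).nonneg x))
  have q0 : Qn n (τ m) ≤ ∫ p : V3 × V3, τ m p.1 * τ m p.2 / ‖p.1 - p.2‖ := by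
    unfold Qn
    refine integral_mono_of_nonneg (Eventually.of_forall fun p => ?_) (prod_coul (hτ m).nice (hτ m).nice)
      (Eventually.of_forall fun p => ?_)
    · exact mul_nonneg (mul_nonneg ((hτ m).nonneg _) ((hτ m).nonneg _)) (gn_sq_nonneg _ _)
    · show τ m p.1 * τ m p.2 * (⟪n, p.1 - p.2⟫ * gn n (p.1 - p.2)) ≤ τ m p.1 * τ m p.2 / ‖p.1 - p.2‖
      rw [div_eq_mul_one_div (τ m p.1 * τ m p.2)]
      exact mul_le_mul_of_nonneg_left ((le_abs_self _).trans (gn_sq_abs n hn _))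
        (mul_nonneg ((hτ m).nonneg _) ((hτ m).nonneg _))
  rw [prod_pot (hτ m).nice] at q0
  have p0 : ∫ x, τ m x * pot (τ m) x ≤ B * ∫ x, τ m x := by
    rw [← integral_const_mul]
    refine integral_mono (TF_E1_int _ _ (hτ m).nice.2.1 (hτ m).nice) ((hτ m).nice.2.1.const_mul B) (fun x => ?_)
    simp only
    rw [mul_comm B]
    refine mul_le_mul_of_nonneg_left ?_ ((hτ m).nonneg x)
    exact (pot_mono (hτ m).nice h₂.nice (hle m) x).trans ((le_abs_self _).trans (hB x))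
  unfold SF
  linarith

theorem exists_EL {l : ℝ} {ρ : V3 → ℝ} (hl : 0 < l) (a : AA ρ) (m : (∫ x, ρ x) = l)
    (mn : ∀ σ, AA σ → (∫ x, σ x) = l → FE z R ρ ≤ FE z R σ) :
    ∃ Φ, 0 ≤ Φ ∧ ∃ ρ', ELs z R Φ ρ' ∧ ρ =ᵐ[volume] ρ' := by
  obtain ⟨σ, hσ, hae⟩ := AA_mod a
  have mσ : ∫ x, σ x = l := by rw [← m]; exact (integral_congr_ae hae).symm
  obtain ⟨Φ, hΦ, ρ', hρ', hae'⟩ := min_EL (z := z) (R := R) hσ (fun τ hτ hm => by
    rw [← FE_eq, ← FE_eq, ← FE_congr hae]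
    exact mn τ ⟨hτ.2.1, hτ.2.2.1, hτ.2.2.2⟩ (hm.trans mσ)) (by rw [mσ]; exact hl)
  exact ⟨Φ, hΦ, ρ', hρ', hae.trans hae'⟩

/-- a functional that is monotone along the Euler–Lagrange solutions is monotone along the
minimisers -/
theorem mono_of {F : (V3 → ℝ) → ℝ}
    (cong : ∀ {f g : V3 → ℝ}, f =ᵐ[volume] g → F f = F g)
    (hM : ∀ {Φ₁ Φ₂ : ℝ} {ρ₁ ρ₂ : V3 → ℝ}, 0 ≤ Φ₂ → Φ₂ ≤ Φ₁ → ELs z R Φ₁ ρ₁ → ELs z R Φ₂ ρ₂ →
      F ρ₂ ≤ F ρ₁)
    (hM0 : ∀ {Φ₂ : ℝ} {ρ₂ : V3 → ℝ}, 0 ≤ Φ₂ → ELs z R Φ₂ ρ₂ → F ρ₂ ≤ F (fun _ => 0))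
    {l₁ l₂ : ℝ} {ρ₁ ρ₂ : V3 → ℝ} (h0 : 0 ≤ l₁) (h12 : l₁ ≤ l₂)
    (a₁ : AA ρ₁) (m₁ : (∫ x, ρ₁ x) = l₁)
    (min₁ : ∀ σ, AA σ → (∫ x, σ x) = l₁ → FE z R ρ₁ ≤ FE z R σ)
    (a₂ : AA ρ₂) (m₂ : (∫ x, ρ₂ x) = l₂)
    (min₂ : ∀ σ, AA σ → (∫ x, σ x) = l₂ → FE z R ρ₂ ≤ FE z R σ) : F ρ₂ ≤ F ρ₁ := by
  have zero : ∀ {ρ : V3 → ℝ}, AA ρ → (∫ x, ρ x) = 0 → ρ =ᵐ[volume] fun _ => 0 := by
    intro ρ a m
    exact (integral_eq_zero_iff_of_nonneg a.1 a.2.1).1 m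
  rcases eq_or_lt_of_le h0 with h | h
  · have z1 := zero a₁ (m₁.trans h.symm)
    rcases eq_or_lt_of_le h12 with h' | h'
    · have z2 := zero a₂ (m₂.trans (h'.symm.trans h.symm))
      rw [cong z1, cong z2]
    · obtain ⟨Φ, hΦ, ρ', hρ', hae⟩ := exists_EL (h ▸ h') a₂ m₂ min₂
      rw [cong hae, cong z1]
      exact hM0 hΦ hρ'
  · obtain ⟨Φ₁, hΦ₁, σ₁, hσ₁, hae₁⟩ := exists_EL h a₁ m₁ min₁
    obtain ⟨Φ₂, hΦ₂, σ₂, hσ₂, hae₂⟩ := exists_EL (h.trans_le h12) a₂ m₂ min₂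
    rcases le_total Φ₂ Φ₁ with hc | hc
    · rw [cong hae₁, cong hae₂]
      exact hM hΦ₂ hc hσ₁ hσ₂
    · have hle : ∀ x, σ₂ x ≤ σ₁ x := (EL_mono hσ₂ hσ₁ hc).2
      have e1 : ∫ x, σ₁ x = l₁ := by rw [← m₁]; exact (integral_congr_ae hae₁).symm
      have e2 : ∫ x, σ₂ x = l₂ := by rw [← m₂]; exact (integral_congr_ae hae₂).symm
      have hi : ∫ x, (σ₁ x - σ₂ x) = 0 := by
        refine le_antisymm ?_ (integral_nonneg (fun x => sub_nonneg.2 (hle x)))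
        rw [integral_sub hσ₁.nice.2.1 hσ₂.nice.2.1, e1, e2]
        linarith
      rw [integral_eq_zero_iff_of_nonneg (fun x => sub_nonneg.2 (hle x)) (hσ₁.nice.2.1.sub hσ₂.nice.2.1)] at hi
      have hae : ρ₂ =ᵐ[volume] ρ₁ := by
        filter_upwards [hae₁, hae₂, hi] with x x1 x2 x3
        simp only [Pi.zero_apply] at x3
        rw [x1, x2]
        linarith
      rw [cong hae]

theorem stress_eq (n : V3) (ρ : V3 → ℝ) : stress n z R ρ = SF n z R ρ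
    + ∑ i, ∑ j, (if i < j then z i * z j * ⟪n, R i - R j⟫ ^ 2 / ‖R i - R j‖ ^ 3 else 0) := by
  unfold stress SF kinetic Qn gn
  have e1 : (fun x => (∑ i, z i * ⟪n, x - R i⟫ ^ 2 / ‖x - R i‖ ^ 3) * ρ x)
      = fun x => (∑ i, z i * (⟪n, x - R i⟫ * (⟪n, x - R i⟫ / ‖x - R i‖ ^ 3))) * ρ x := by
    funext x
    congr 1
    exact Finset.sum_congr rfl fun i _ => by ring
  have e2 : (fun p : V3 × V3 => ρ p.1 * ρ p.2 * ⟪n, p.1 - p.2⟫ ^ 2 / ‖p.1 - p.2‖ ^ 3)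
      = fun p : V3 × V3 => ρ p.1 * ρ p.2 * (⟪n, p.1 - p.2⟫ * (⟪n, p.1 - p.2⟫ / ‖p.1 - p.2‖ ^ 3)) := by
    funext p
    ring
  rw [e1, e2]
  ring

theorem FE_conv {l : ℝ} {ρ : V3 → ℝ} (h : IsMinimiser z R l ρ) :
    AA ρ ∧ (∫ x, ρ x) = l ∧ ∀ σ, AA σ → (∫ x, σ x) = l → FE z R ρ ≤ FE z R σ := by
  refine ⟨h.1, h.2.1, fun σ hσ hm => ?_⟩
  have h1 := h.2.2 σ hσ hm
  unfold energy kinetic at h1
  unfold FE
  linarith

theorem SF_fun_zero (n : V3) : SF n z R (fun _ => 0) = 0 := by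
  unfold SF Qn
  simp

/-- the pressure tensor decreases in every direction -/
theorem stress_mono (hz : ∀ j, 0 ≤ z j) (n : V3) (hn : ‖n‖ = 1) {l₁ l₂ : ℝ} {ρ₁ ρ₂ : V3 → ℝ}
    (h12 : l₁ ≤ l₂) (h₁ : IsMinimiser z R l₁ ρ₁) (h₂ : IsMinimiser z R l₂ ρ₂) :
    stress n z R ρ₂ ≤ stress n z R ρ₁ := by
  obtain ⟨a₁, m₁, min₁⟩ := FE_conv h₁
  obtain ⟨a₂, m₂, min₂⟩ := FE_conv h₂
  have h0 : 0 ≤ l₁ := by rw [← m₁]; exact integral_nonneg a₁.1
  rw [stress_eq, stress_eq]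
  have := mono_of (z := z) (R := R) (F := SF n z R) (fun h => SF_congr n h)
    (fun a b c d => SF_mono hz n hn a b c d)
    (fun a b => by rw [SF_fun_zero]; exact SF_zero hz n hn a b) h0 h12 a₁ m₁ min₁ a₂ m₂ min₂
  linarith

/-- the pressure decreases -/
theorem energy_mono (hz : ∀ j, 0 ≤ z j) {l₁ l₂ : ℝ} {ρ₁ ρ₂ : V3 → ℝ}
    (h12 : l₁ ≤ l₂) (h₁ : IsMinimiser z R l₁ ρ₁) (h₂ : IsMinimiser z R l₂ ρ₂) :
    energy z R ρ₂ + kinetic ρ₂ ≤ energy z R ρ₁ + kinetic ρ₁ := by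
  obtain ⟨a₁, m₁, min₁⟩ := FE_conv h₁
  obtain ⟨a₂, m₂, min₂⟩ := FE_conv h₂
  have h0 : 0 ≤ l₁ := by rw [← m₁]; exact integral_nonneg a₁.1
  have := mono_of (z := z) (R := R) (F := fun ρ => FE z R ρ + 3/5 * ∫ x, ρ x ^ ((5 : ℝ) / 3))
    (fun {f g} h => by
      rw [FE_congr h]
      congr 2
      refine integral_congr_ae ?_
      filter_upwards [h] with x hx
      rw [hx])
    (fun {Φ₁ Φ₂ ρ₁ ρ₂} a b c d => by
      rw [← M_eq c.nice, ← M_eq d.nice]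
      exact ThmM hz a b c d)
    (fun {Φ₂ ρ₂} a b => by
      rw [← M_eq b.nice]
      have e : FE z R (fun _ : V3 => (0 : ℝ)) + 3/5 * (∫ x : V3, (0 : ℝ) ^ ((5 : ℝ) / 3)) = 0 := by
        unfold FE
        simp
      rw [e]
      exact ThmM0 hz a b) h0 h12 a₁ m₁ min₁ a₂ m₂ min₂
  have e1 : ∀ ρ, energy z R ρ + kinetic ρ = (FE z R ρ + 3/5 * ∫ x, ρ x ^ ((5 : ℝ) / 3))
      + ∑ i, ∑ j, (if i < j then z i * z j / ‖R i - R j‖ else 0) := by
    intro ρ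
    unfold energy kinetic FE
    ring
  rw [e1, e1]
  linarith

/-! ### the trace of the pressure tensor -/

theorem sum_sq (b : OrthonormalBasis (Fin 3) ℝ V3) (v : V3) : ∑ a, ⟪b a, v⟫ ^ 2 = ‖v‖ ^ 2 := by
  have h := b.sum_sq_norm_inner_right v
  rw [← h]
  exact Finset.sum_congr rfl fun a _ => by rw [Real.norm_eq_abs, sq_abs]

theorem sum_gn' (b : OrthonormalBasis (Fin 3) ℝ V3) (v : V3) :
    ∑ a, ⟪b a, v⟫ * gn (b a) v = 1 / ‖v‖ := by
  unfold gn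
  have e : ∀ a, ⟪b a, v⟫ * (⟪b a, v⟫ / ‖v‖ ^ 3) = ⟪b a, v⟫ ^ 2 / ‖v‖ ^ 3 := fun a => by ring
  rw [Finset.sum_congr rfl (fun a _ => e a), ← Finset.sum_div, sum_sq]
  rcases eq_or_ne ‖v‖ 0 with h | h
  · rw [h]; norm_num
  · field_simp

theorem trace_nice (b : OrthonormalBasis (Fin 3) ℝ V3) {g : V3 → ℝ} (hg : Nice g) :
    ∑ a, SF (b a) z R g = FE z R g + 3/5 * ∫ x, g x ^ ((5 : ℝ) / 3) := by
  have hn : ∀ a, ‖b a‖ = 1 := fun a => b.norm_eq_one a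
  have r1 : ∑ a, ∫ x, (∑ i, z i * (⟪b a, x - R i⟫ * gn (b a) (x - R i))) * g x
      = ∫ x, VV z R x * g x := by
    rw [← integral_finsetSum]
    · congr 1
      funext x
      rw [← Finset.sum_mul]
      congr 1
      rw [Finset.sum_comm]
      unfold VV
      refine Finset.sum_congr rfl fun i _ => ?_
      rw [← Finset.mul_sum, sum_gn']
      ring
    · intro a _
      have : Integrable (fun x => ∑ i, z i * (g x * (⟪b a, x - R i⟫ * gn (b a) (x - R i)))) :=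
        integrable_finsetSum _ fun i _ => (quad_int hg (b a) (hn a) (R i)).const_mul (z i)
      refine this.congr (Eventually.of_forall fun x => ?_)
      simp only
      rw [Finset.sum_mul]
      exact Finset.sum_congr rfl fun i _ => by ring
  have r2 : ∑ a, Qn (b a) g = ∫ p : V3 × V3, g p.1 * g p.2 / ‖p.1 - p.2‖ := by
    unfold Qn
    rw [← integral_finsetSum]
    · congr 1
      funext p
      rw [← Finset.mul_sum, sum_gn']
      ring
    · intro a _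
      have hm : Measurable (fun p : V3 × V3 => g p.1 * g p.2 * (⟪b a, p.1 - p.2⟫ * gn (b a) (p.1 - p.2))) :=
        ((hg.1.comp measurable_fst).mul (hg.1.comp measurable_snd)).mul
          (((inner_cont _).measurable.comp (measurable_fst.sub measurable_snd)).mul ((gn_meas _).comp (measurable_fst.sub measurable_snd)))
      refine (prod_coul hg hg).norm.mono' hm.aestronglyMeasurable (Eventually.of_forall (fun p => ?_))
      rw [norm_mul, norm_div, norm_norm, div_eq_mul_one_div]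
      exact mul_le_mul_of_nonneg_left (gn_sq_abs _ (hn a) _) (norm_nonneg _)
  rw [← M_eq hg]
  unfold SF
  rw [Finset.sum_add_distrib, Finset.sum_sub_distrib, r1, ← Finset.mul_sum Finset.univ (fun a => Qn (b a) g), r2]
  simp only [Finset.sum_const, Finset.card_univ, Fintype.card_fin, nsmul_eq_mul]
  push_cast
  ring

/-- the sum of the three diagonal entries of the pressure tensor is three times the pressure -/
theorem trace_eq (b : OrthonormalBasis (Fin 3) ℝ V3) {l : ℝ} {ρ : V3 → ℝ}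
    (h : IsMinimiser z R l ρ) : ∑ a, stress (b a) z R ρ = energy z R ρ + kinetic ρ := by
  obtain ⟨a, m, mn⟩ := FE_conv h
  have h0 : 0 ≤ l := by rw [← m]; exact integral_nonneg a.1
  obtain ⟨σ, hσ, hae⟩ : ∃ σ, Nice σ ∧ ρ =ᵐ[volume] σ := by
    obtain ⟨σ, hσ, hae⟩ := AA_mod a
    exact ⟨σ, nice_of_adm hσ, hae⟩
  have e1 : ∑ c, stress (b c) z R ρ = (∑ c, SF (b c) z R ρ)
      + ∑ i, ∑ j, (if i < j then z i * z j / ‖R i - R j‖ else 0) := by
    rw [Finset.sum_congr rfl (fun c _ => stress_eq (b c) ρ), Finset.sum_add_distrib]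
    congr 1
    rw [Finset.sum_comm]
    refine Finset.sum_congr rfl fun i _ => ?_
    rw [Finset.sum_comm]
    refine Finset.sum_congr rfl fun j _ => ?_
    by_cases hij : i < j
    · simp only [if_pos hij]
      have h3 := sum_gn' b (R i - R j)
      unfold gn at h3
      have h4 : ∑ c, z i * z j * ⟪b c, R i - R j⟫ ^ 2 / ‖R i - R j‖ ^ 3
          = z i * z j * ∑ c, ⟪b c, R i - R j⟫ * (⟪b c, R i - R j⟫ / ‖R i - R j‖ ^ 3) := by
        rw [Finset.mul_sum]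
        exact Finset.sum_congr rfl fun c _ => by ring
      rw [h4, h3]
      ring
    · simp only [if_neg hij, Finset.sum_const_zero]
  have e2 : ∀ c, SF (b c) z R ρ = SF (b c) z R σ := fun c => SF_congr _ hae
  have e3 : FE z R ρ = FE z R σ := FE_congr hae
  have e4 : ∫ x, ρ x ^ ((5 : ℝ) / 3) = ∫ x, σ x ^ ((5 : ℝ) / 3) := by
    refine integral_congr_ae ?_
    filter_upwards [hae] with x hx
    rw [hx]
  rw [e1, Finset.sum_congr rfl (fun c _ => e2 c), trace_nice b hσ, ← e3, ← e4]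
  unfold energy kinetic FE
  ring

end

/-- **Monotonicity of the Thomas–Fermi pressure tensor.**  For all nonnegative charges at
arbitrary points of three-space and all electron numbers `l₁ ≤ l₂` for which minimisers exist:
every directional component of the pressure tensor is at most its value for `l₁`, the pressure
tensor has trace `e + K`, and `e + K` does not increase. -/
theorem result (k : ℕ) (z : Fin k → ℝ) (R : Fin k → V3) (hz : ∀ i, 0 ≤ z i)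
    (l₁ l₂ : ℝ) (ρ₁ ρ₂ : V3 → ℝ) (h12 : l₁ ≤ l₂)
    (h₁ : IsMinimiser z R l₁ ρ₁) (h₂ : IsMinimiser z R l₂ ρ₂) :
    (∀ n : V3, ‖n‖ = 1 → stress n z R ρ₂ ≤ stress n z R ρ₁) ∧
    (∀ b : OrthonormalBasis (Fin 3) ℝ V3,
      ∑ a, stress (b a) z R ρ₁ = energy z R ρ₁ + kinetic ρ₁ ∧
      ∑ a, stress (b a) z R ρ₂ = energy z R ρ₂ + kinetic ρ₂) ∧
    energy z R ρ₂ + kinetic ρ₂ ≤ energy z R ρ₁ + kinetic ρ₁ :=
  ⟨fun n hn => stress_mono hz n hn h12 h₁ h₂, fun b => ⟨trace_eq b h₁, trace_eq b h₂⟩,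
    energy_mono hz h12 h₁ h₂⟩

end Pool.Agent.Results.MP_0f7e37_mp.Directional
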